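import Pool.Agent.helper76.DP.Spec

/-!
Row `dp:CRA` (MP_bf63dc_nt, project DP): the weights are bounded.
-/

set_option autoImplicit false

namespace Pool.Agent.DP

open Finset
open Pool.Agent.FR (mean Eig)
open Pool.Agent.AT (Qk Pair)
open Pool.Agent.HF (Om TC NoTC)
open Pool.Agent.IT (Ad)

theorem CRA_tele (N : ℕ) (hN : 1 ≤ N) : ∏ n ∈ Icc 2 N, (1 - 1 / (n : ℝ) ^ 2) = ((N : ℝ) + 1) / (2 * N) := by
  induction N, hN using Nat.le_induction with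
  | base => norm_num
  | succ N hN ih =>
    rw [← Finset.insert_Icc_right_eq_Icc_add_one (show 2 ≤ N + 1 by omega), Finset.prod_insert (by simp), ih]
    have h1 : (0 : ℝ) < N := by exact_mod_cast hN
    push_cast
    field_simp
    ring

theorem CRA_prod (S : Finset ℕ) (hS : ∀ n ∈ S, 2 ≤ n) : (1 : ℝ) / 2 ≤ ∏ n ∈ S, (1 - 1 / (n : ℝ) ^ 2) := by
  classical
  obtain ⟨N, hN⟩ : ∃ N : ℕ, ∀ n ∈ S, n ≤ N := ⟨S.sup id, fun n hn => Finset.le_sup (f := id) hn⟩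
  have hf : ∀ n : ℕ, 2 ≤ n → (0 : ℝ) ≤ 1 - 1 / (n : ℝ) ^ 2 ∧ 1 - 1 / (n : ℝ) ^ 2 ≤ 1 := by
    intro n hn
    have h2 : (2 : ℝ) ≤ n := by exact_mod_cast hn
    have h3 : (1 : ℝ) ≤ (n : ℝ) ^ 2 := by nlinarith
    have h4 : 1 / (n : ℝ) ^ 2 ≤ 1 := by
      rw [div_le_one (by linarith)]
      exact h3
    have h5 : 0 ≤ 1 / (n : ℝ) ^ 2 := by positivity
    constructor <;> linarith
  have hsub : S ⊆ Icc 2 (N + 1) := fun n hn => Finset.mem_Icc.2 ⟨hS n hn, (hN n hn).trans (by omega)⟩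
  have h1 : ∏ n ∈ Icc 2 (N + 1), (1 - 1 / (n : ℝ) ^ 2) ≤ ∏ n ∈ S, (1 - 1 / (n : ℝ) ^ 2) := by
    rw [← Finset.prod_sdiff hsub]
    have h2 : ∏ n ∈ Icc 2 (N + 1) \ S, (1 - 1 / (n : ℝ) ^ 2) ≤ 1 :=
      Finset.prod_le_one (fun n hn => (hf n (Finset.mem_Icc.1 (Finset.mem_sdiff.1 hn).1).1).1) fun n hn => (hf n (Finset.mem_Icc.1 (Finset.mem_sdiff.1 hn).1).1).2
    have h3 : 0 ≤ ∏ n ∈ S, (1 - 1 / (n : ℝ) ^ 2) := Finset.prod_nonneg fun n hn => (hf n (hS n hn)).1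
    calc _ ≤ 1 * ∏ n ∈ S, (1 - 1 / (n : ℝ) ^ 2) := mul_le_mul_of_nonneg_right h2 h3
      _ = _ := one_mul _
  rw [CRA_tele (N + 1) (by omega)] at h1
  refine le_trans ?_ h1
  push_cast
  rw [div_le_div_iff₀ (by norm_num) (by positivity)]
  linarith [(Nat.cast_nonneg N : (0 : ℝ) ≤ N)]

theorem CRA_dn (a b : ℕ) (ha : 1 ≤ a) (hb : 1 ≤ b) : dn a b * ∏ p ∈ (2 * a * b).primeFactors, ((p : ℝ) / (p - 1)) = 1 := by
  have hn : 2 * a * b ≠ 0 := by positivity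
  have h1 : ((Nat.totient (2 * a * b) : ℕ) : ℚ) = ((2 * a * b : ℕ) : ℚ) * ∏ p ∈ (2 * a * b).primeFactors, (1 - (p : ℚ)⁻¹) := Nat.totient_eq_mul_prod_factors _
  have h2 : ((Nat.totient (2 * a * b) : ℕ) : ℝ) = ((2 * a * b : ℕ) : ℝ) * ∏ p ∈ (2 * a * b).primeFactors, (1 - (p : ℝ)⁻¹) := by
    have h5 := congrArg (fun x : ℚ => (x : ℝ)) h1
    push_cast at h5 ⊢
    exact h5
  have h3 : ((2 * a * b : ℕ) : ℝ) ≠ 0 := by exact_mod_cast hn
  have h4 : dn a b = ∏ p ∈ (2 * a * b).primeFactors, (1 - (p : ℝ)⁻¹) := by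
    unfold dn
    rw [h2]
    field_simp
  rw [h4, ← Finset.prod_mul_distrib]
  refine Finset.prod_eq_one fun p hp => ?_
  have hp2 : (2 : ℝ) ≤ p := by exact_mod_cast (Nat.prime_of_mem_primeFactors hp).two_le
  have hp0 : (p : ℝ) ≠ 0 := by linarith
  have hp1 : (p : ℝ) - 1 ≠ 0 := by linarith
  field_simp

theorem CRA (hCRL : CRL_stmt) : CRA_stmt := by
  classical
  intro Q a b _ ha hb hab hQ z z'
  have hQ0 : Q ≠ 0 := NeZero.ne Q
  have hNu : 0 < Nu Q a b ((a : ZMod Q) * z - b * z') := by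
    unfold Nu
    exact Finset.card_pos.2 ⟨(z, z'), by simp⟩
  have hn : 2 * a * b ≠ 0 := by positivity
  have hdn : 0 < dn a b := by
    unfold dn
    have h1 : 0 < Nat.totient (2 * a * b) := Nat.totient_pos.2 (Nat.pos_of_ne_zero hn)
    have h2 : 0 < 2 * a * b := Nat.pos_of_ne_zero hn
    have h3 : (0 : ℝ) < (Nat.totient (2 * a * b) : ℝ) := by exact_mod_cast h1
    have h4 : (0 : ℝ) < ((2 * a * b : ℕ) : ℝ) := by exact_mod_cast h2
    exact div_pos h3 h4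
  have hQr : (0 : ℝ) < Q := by exact_mod_cast Nat.pos_of_ne_zero hQ0
  have hNr : (0 : ℝ) < Nu Q a b ((a : ZMod Q) * z - b * z') := by exact_mod_cast hNu
  have hden : 0 < dn a b * Q * Nu Q a b ((a : ZMod Q) * z - b * z') := by positivity
  refine ⟨hNu, by unfold om; positivity, ?_⟩
  -- the integer in the class
  have hz : Nat.Coprime (z : ZMod Q).val Q := ZMod.val_coe_unit_coprime z
  have hz' : Nat.Coprime (z' : ZMod Q).val Q := ZMod.val_coe_unit_coprime z'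
  set u : ℕ := (z : ZMod Q).val with hu
  set u' : ℕ := (z' : ZMod Q).val with hu'
  have hκ : (((a : ℤ) * (u : ℤ) - (b : ℤ) * (u' : ℤ) : ℤ) : ZMod Q) = (a : ZMod Q) * z - b * z' := by
    push_cast
    rw [hu, hu', ZMod.natCast_zmod_val, ZMod.natCast_zmod_val]
  have hpu : ∀ p : ℕ, p.Prime → p ∣ Q → ¬ p ∣ u ∧ ¬ p ∣ u' := by
    intro p hp hpQ
    exact ⟨fun h => hp.one_lt.ne' (Nat.dvd_one.1 (hz ▸ Nat.dvd_gcd h hpQ)), fun h => hp.one_lt.ne' (Nat.dvd_one.1 (hz' ▸ Nat.dvd_gcd h hpQ))⟩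
  have c1 : ∀ p : ℕ, p.Prime → p ∣ Q → p ∣ a * b → ¬ (p : ℤ) ∣ (a : ℤ) * (u : ℤ) - (b : ℤ) * (u' : ℤ) := by
    intro p hp hpQ hpab hdiv
    obtain ⟨g1, g2⟩ := hpu p hp hpQ
    rcases (Nat.Prime.dvd_mul hp).1 hpab with h | h
    · have h1 : (p : ℤ) ∣ (a : ℤ) * (u : ℤ) := Dvd.dvd.mul_right (Int.natCast_dvd_natCast.2 h) _
      have h2 : (p : ℤ) ∣ (b : ℤ) * (u' : ℤ) := by
        have := dvd_sub h1 hdiv
        rwa [sub_sub_cancel] at this
      have h3 : p ∣ b * u' := by exact_mod_cast h2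
      rcases (Nat.Prime.dvd_mul hp).1 h3 with h4 | h4
      · exact hp.one_lt.ne' (Nat.dvd_one.1 (hab ▸ Nat.dvd_gcd h h4))
      · exact g2 h4
    · have h1 : (p : ℤ) ∣ (b : ℤ) * (u' : ℤ) := Dvd.dvd.mul_right (Int.natCast_dvd_natCast.2 h) _
      have h2 : (p : ℤ) ∣ (a : ℤ) * (u : ℤ) := by
        have := dvd_add hdiv h1
        rwa [sub_add_cancel] at this
      have h3 : p ∣ a * u := by exact_mod_cast h2
      rcases (Nat.Prime.dvd_mul hp).1 h3 with h4 | h4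
      · exact hp.one_lt.ne' (Nat.dvd_one.1 (hab ▸ Nat.dvd_gcd h4 h))
      · exact g1 h4
  have c2 : 2 ∣ Q → ¬ 2 ∣ a * b → (2 : ℤ) ∣ (a : ℤ) * (u : ℤ) - (b : ℤ) * (u' : ℤ) := by
    intro h2Q h2ab
    obtain ⟨g1, g2⟩ := hpu 2 Nat.prime_two h2Q
    have g3 : ¬ 2 ∣ a := fun h => h2ab (h.mul_right b)
    have g4 : ¬ 2 ∣ b := fun h => h2ab (h.mul_left a)
    have o1 : Odd ((a : ℤ) * (u : ℤ)) := by
      have : Odd (a * u) := (Nat.odd_iff.2 (by omega)).mul (Nat.odd_iff.2 (by omega))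
      exact_mod_cast this
    have o2 : Odd ((b : ℤ) * (u' : ℤ)) := by
      have : Odd (b * u') := (Nat.odd_iff.2 (by omega)).mul (Nat.odd_iff.2 (by omega))
      exact_mod_cast this
    exact (o1.sub_odd o2).two_dvd
  have key := hCRL Q a b ((a : ℤ) * (u : ℤ) - (b : ℤ) * (u' : ℤ)) ha hb hab c1 c2
  rw [hκ] at key
  -- the product
  have hsub : (2 * a * b).primeFactors ⊆ Q.primeFactors := Nat.primeFactors_mono hQ hQ0
  have hprod : (1 : ℝ) ≤ 2 * dn a b * ∏ p ∈ Q.primeFactors, (if p ∣ 2 * a * b then (p : ℝ) / (p - 1) else 1 - 1 / ((p : ℝ) - 1) ^ 2) := by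
    rw [← Finset.prod_sdiff hsub]
    have e1 : ∏ p ∈ (2 * a * b).primeFactors, (if p ∣ 2 * a * b then (p : ℝ) / (p - 1) else 1 - 1 / ((p : ℝ) - 1) ^ 2) = ∏ p ∈ (2 * a * b).primeFactors, ((p : ℝ) / (p - 1)) :=
      Finset.prod_congr rfl fun p hp => if_pos (Nat.dvd_of_mem_primeFactors hp)
    have e2 : ∏ p ∈ Q.primeFactors \ (2 * a * b).primeFactors, (if p ∣ 2 * a * b then (p : ℝ) / (p - 1) else 1 - 1 / ((p : ℝ) - 1) ^ 2) =
        ∏ n ∈ (Q.primeFactors \ (2 * a * b).primeFactors).image (fun p : ℕ => (p - 1 : ℕ)), (1 - 1 / (n : ℝ) ^ 2) := by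
      rw [Finset.prod_image]
      · refine Finset.prod_congr rfl fun p hp => ?_
        rw [Finset.mem_sdiff] at hp
        have hpp := Nat.prime_of_mem_primeFactors hp.1
        rw [if_neg fun h => hp.2 (Nat.mem_primeFactors.2 ⟨hpp, h, hn⟩), Nat.cast_sub hpp.one_le, Nat.cast_one]
      · intro p hp p' hp' h
        have h1 := (Nat.prime_of_mem_primeFactors (Finset.mem_sdiff.1 hp).1).one_le
        have h2 := (Nat.prime_of_mem_primeFactors (Finset.mem_sdiff.1 hp').1).one_le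
        have h3 : p - 1 = p' - 1 := h
        omega
    have e3 : (1 : ℝ) / 2 ≤ ∏ n ∈ (Q.primeFactors \ (2 * a * b).primeFactors).image (fun p : ℕ => (p - 1 : ℕ)), (1 - 1 / (n : ℝ) ^ 2) := by
      refine CRA_prod _ fun n hn' => ?_
      obtain ⟨p, hp, rfl⟩ := Finset.mem_image.1 hn'
      rw [Finset.mem_sdiff] at hp
      have hpp := Nat.prime_of_mem_primeFactors hp.1
      have hp2 : p ≠ 2 := by
        rintro rfl
        exact hp.2 (Nat.mem_primeFactors.2 ⟨hpp, ⟨a * b, by ring⟩, hn⟩)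
      have := hpp.two_le
      show 2 ≤ p - 1
      omega
    have e4 := CRA_dn a b ha hb
    rw [e1, e2]
    set X := ∏ n ∈ (Q.primeFactors \ (2 * a * b).primeFactors).image (fun p : ℕ => (p - 1 : ℕ)), (1 - 1 / (n : ℝ) ^ 2) with hX
    set Y := ∏ p ∈ (2 * a * b).primeFactors, ((p : ℝ) / (p - 1)) with hY
    calc (1 : ℝ) ≤ 2 * X := by linarith
      _ = 2 * X * (dn a b * Y) := by rw [e4, mul_one]
      _ = _ := by ring
  unfold om
  rw [div_le_iff₀ hden]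
  have ht : (0 : ℝ) ≤ (Nat.totient Q : ℝ) ^ 2 := by positivity
  set W := ∏ p ∈ Q.primeFactors, (if p ∣ 2 * a * b then (p : ℝ) / (p - 1) else 1 - 1 / ((p : ℝ) - 1) ^ 2) with hW
  calc (Nat.totient Q : ℝ) ^ 2 = (Nat.totient Q : ℝ) ^ 2 * 1 := by ring
    _ ≤ (Nat.totient Q : ℝ) ^ 2 * (2 * dn a b * W) := mul_le_mul_of_nonneg_left hprod ht
    _ = 2 * dn a b * ((Nat.totient Q : ℝ) ^ 2 * W) := by ring
    _ ≤ 2 * dn a b * (Q * Nu Q a b ((a : ZMod Q) * z - b * z')) := mul_le_mul_of_nonneg_left key (by positivity)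
    _ = _ := by ring

end Pool.Agent.DP
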